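import Pool.Agent.Lib_helper81.MC.RR
import Pool.Agent.Lib_helper81.MC.RD
import Pool.Agent.Lib_helper41.MC.G1
import Pool.Agent.Lib_helper68.MC.DefsD

/-! Project MC (MP_b08f5f_an, microcanonical), block GM: geometric means of radial densities. -/

set_option autoImplicit false

namespace Pool.Agent.Lib_helper68.MC

open MeasureTheory Filter Topology Set
open scoped ComplexConjugate ENNReal NNReal

noncomputable section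

theorem GM_mo {ρ ρ' : ℂ → ℝ} (h : ρ =ᵐ[volume] ρ') : mo ρ = mo ρ' := by
  unfold mo
  refine integral_congr_ae ?_
  filter_upwards [h] with x hx
  rw [hx]

theorem GM_sent {ρ ρ' : ℂ → ℝ} (h : ρ =ᵐ[volume] ρ') : Sent ρ = Sent ρ' := by
  unfold Sent
  rw [neg_inj]
  refine integral_congr_ae ?_
  filter_upwards [h] with x hx
  rw [hx]

theorem GM_en {ρ ρ' : ℂ → ℝ} (h : ρ =ᵐ[volume] ρ') : En ρ ρ = En ρ' ρ' := by
  unfold En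
  congr 1
  refine integral_congr_ae ?_
  have h1 : ∀ᵐ p : ℂ × ℂ, ρ p.1 = ρ' p.1 :=
    Measure.quasiMeasurePreserving_fst.ae h
  have h2 : ∀ᵐ p : ℂ × ℂ, ρ p.2 = ρ' p.2 :=
    Measure.quasiMeasurePreserving_snd.ae h
  filter_upwards [h1, h2] with p hp hq
  rw [hp, hq]

/-- the minimum of two almost everywhere equal densities -/
theorem GM_min {g₀ g₁ : ℝ → ℝ} (h₀ : Den1 g₀) (h₁ : Den1 g₁) (h : g₀ =ᵐ[volume] g₁) :
    Den1 fun v => min (g₀ v) (g₁ v) := by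
  have e : (fun v => min (g₀ v) (g₁ v)) =ᵐ[volume] g₀ := by
    filter_upwards [h] with v hv
    rw [hv, min_self]
  refine ⟨h₀.meas.min h₁.meas, fun v => le_min (h₀.nonneg v) (h₁.nonneg v), fun v hv => ?_,
    h₀.int.congr e.symm, ?_, h₀.ent.congr ?_, h₀.mom.congr ?_⟩
  · rw [h₀.zero v hv, h₁.zero v hv, min_self]
  · rw [integral_congr_ae e, h₀.one]
  · filter_upwards [e] with v hv
    rw [hv]
  · filter_upwards [e] with v hv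
    rw [hv]

theorem GM_le_eq {g g' : ℝ → ℝ} (h : Den1 g) (h' : Den1 g') (hle : ∀ v, g v ≤ g' v) :
    lif g =ᵐ[volume] lif g' := by
  obtain ⟨d, -⟩ := RR_lift h
  obtain ⟨d', -⟩ := RR_lift h'
  have h0 : 0 ≤ᵐ[volume] fun x => lif g' x - lif g x :=
    Eventually.of_forall fun x => sub_nonneg.2 (hle _)
  have h1 : ∫ x, (lif g' x - lif g x) = 0 := by
    rw [integral_sub d'.int d.int, d'.one, d.one, sub_self]
  have h2 := (integral_eq_zero_iff_of_nonneg_ae h0 (d'.int.sub d.int)).1 h1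
  filter_upwards [h2] with x hx
  simp only [Pi.zero_apply] at hx
  linarith

theorem GM_lif {g₀ g₁ : ℝ → ℝ} (h₀ : Den1 g₀) (h₁ : Den1 g₁) (h : g₀ =ᵐ[volume] g₁) :
    lif g₀ =ᵐ[volume] lif g₁ :=
  (GM_le_eq (GM_min h₀ h₁ h) h₀ fun _ => min_le_left _ _).symm.trans
    (GM_le_eq (GM_min h₀ h₁ h) h₁ fun _ => min_le_right _ _)

theorem GM_main {ρ₀ ρ₁ : ℂ → ℝ} (h₀ : Dens ρ₀) (h₁ : Dens ρ₁)
    (r₀ : ∀ α : ℂ, ‖α‖ = 1 → (fun x => ρ₀ (α * x)) =ᵐ[volume] ρ₀)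
    (r₁ : ∀ α : ℂ, ‖α‖ = 1 → (fun x => ρ₁ (α * x)) =ᵐ[volume] ρ₁)
    (hne : ¬ ρ₀ =ᵐ[volume] ρ₁) :
    ∃ ρ : ℂ → ℝ, Dens ρ ∧ mo ρ < (mo ρ₀ + mo ρ₁) / 2 ∧ En ρ ρ = (En ρ₀ ρ₀ + En ρ₁ ρ₁) / 2 ∧
      (Sent ρ₀ + Sent ρ₁) / 2 ≤ Sent ρ := by
  obtain ⟨g₀, d₀, e₀⟩ := RR_desc h₀ r₀
  obtain ⟨g₁, d₁, e₁⟩ := RR_desc h₁ r₁
  have hg : ¬ g₀ =ᵐ[volume] g₁ := fun h =>
    hne (e₀.trans ((GM_lif d₀ d₁ h).trans e₁.symm))
  obtain ⟨g, d, hm, hL, hS⟩ := G1_main d₀ d₁ hg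
  obtain ⟨D, -, s, m⟩ := RR_lift d
  obtain ⟨-, -, s₀, m₀⟩ := RR_lift d₀
  obtain ⟨-, -, s₁, m₁⟩ := RR_lift d₁
  refine ⟨lif g, D, ?_, ?_, ?_⟩
  · rw [GM_mo e₀, GM_mo e₁, m, m₀, m₁]
    have := mul_lt_mul_of_pos_left hm (inv_pos.2 Real.pi_pos)
    linarith
  · rw [GM_en e₀, GM_en e₁, RR_en d, RR_en d₀, RR_en d₁, hL]
    ring
  · rw [GM_sent e₀, GM_sent e₁, s, s₀, s₁]
    exact hS

end

end Pool.Agent.Lib_helper68.MC
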