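import Pool.Agent.Lib_helper88.MC.MX
import Pool.Agent.Lib_helper72.MC.GE
import Pool.Agent.Lib_helper65.MC.GA
import Pool.Agent.Lib_helper36.MC.CX

/-! Project MC (MP_b08f5f_an, microcanonical), block FA: moment exactly one. -/

set_option autoImplicit false

namespace Pool.Agent.Lib_helper68.MC

open MeasureTheory Filter Topology Set
open scoped ComplexConjugate ENNReal NNReal

noncomputable section

/-- first moments exist -/
theorem FA_norm_int {ρ : ℂ → ℝ} (h : Dens ρ) : Integrable fun x => ‖x‖ * ρ x := by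
  refine Integrable.mono' (h.int.add h.mom)
    (measurable_norm.mul h.meas).aestronglyMeasurable (Eventually.of_forall fun x => ?_)
  have h0 := h.nonneg x
  rw [Real.norm_eq_abs, abs_of_nonneg (mul_nonneg (norm_nonneg x) h0)]
  have h1 : ‖x‖ ≤ 1 + ‖x‖ ^ 2 := by nlinarith [sq_nonneg (‖x‖ - 1), norm_nonneg x]
  have h2 := mul_le_mul_of_nonneg_right h1 h0
  simp only [Pi.add_apply]
  linarith

theorem FA_norm_le {ρ : ℂ → ℝ} (h : Dens ρ) {R : ℝ} (hR : 0 < R) :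
    ∫ x, ‖x‖ * ρ x ≤ (R + mo ρ / R) / 2 := by
  have h1 : ∀ x : ℂ, ‖x‖ * ρ x ≤ (R / 2) * ρ x + (1 / (2 * R)) * (‖x‖ ^ 2 * ρ x) := by
    intro x
    have h0 := h.nonneg x
    have h2 : ‖x‖ ≤ R / 2 + 1 / (2 * R) * ‖x‖ ^ 2 := by
      have h3 : 0 ≤ 1 / (2 * R) * (‖x‖ - R) ^ 2 := by positivity
      have h4 : 1 / (2 * R) * (‖x‖ - R) ^ 2 = R / 2 + 1 / (2 * R) * ‖x‖ ^ 2 - ‖x‖ := by
        field_simp
        ring
      linarith
    have h5 := mul_le_mul_of_nonneg_right h2 h0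
    calc ‖x‖ * ρ x ≤ (R / 2 + 1 / (2 * R) * ‖x‖ ^ 2) * ρ x := h5
      _ = _ := by ring
  have h2 := integral_mono (FA_norm_int h)
    ((h.int.const_mul (R / 2)).add (h.mom.const_mul (1 / (2 * R)))) h1
  rw [integral_add' (h.int.const_mul _) (h.mom.const_mul _), integral_const_mul,
    integral_const_mul, h.one] at h2
  calc ∫ x, ‖x‖ * ρ x ≤ R / 2 * 1 + 1 / (2 * R) * mo ρ := h2
    _ = _ := by field_simp

/-- lower bound for the mutual energy -/
theorem FA_low {ρ ρ' : ℂ → ℝ} (h : Dens ρ) (h' : Dens ρ') :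
    -(1 / (4 * Real.pi)) * ((∫ x, ‖x‖ * ρ x) + ∫ x, ‖x‖ * ρ' x) ≤ En ρ ρ' := by
  have i1 : Integrable fun p : ℂ × ℂ => (‖p.1‖ * ρ p.1) * ρ' p.2 :=
    (FA_norm_int h).mul_prod h'.int
  have i2 : Integrable fun p : ℂ × ℂ => ρ p.1 * (‖p.2‖ * ρ' p.2) :=
    h.int.mul_prod (FA_norm_int h')
  have h1 : ∫ p : ℂ × ℂ, Real.log ‖p.1 - p.2‖ * (ρ p.1 * ρ' p.2) ≤
      ∫ p : ℂ × ℂ, ((fun p : ℂ × ℂ => (‖p.1‖ * ρ p.1) * ρ' p.2) +
        fun p : ℂ × ℂ => ρ p.1 * (‖p.2‖ * ρ' p.2)) p := by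
    refine integral_mono (EN_int h h') (i1.add i2) fun p => ?_
    have h0 : 0 ≤ ρ p.1 * ρ' p.2 := mul_nonneg (h.nonneg _) (h'.nonneg _)
    have h2 : Real.log ‖p.1 - p.2‖ ≤ ‖p.1‖ + ‖p.2‖ :=
      (Real.log_le_self (norm_nonneg _)).trans (norm_sub_le _ _)
    have h3 := mul_le_mul_of_nonneg_right h2 h0
    simp only [Pi.add_apply]
    calc Real.log ‖p.1 - p.2‖ * (ρ p.1 * ρ' p.2) ≤ (‖p.1‖ + ‖p.2‖) * (ρ p.1 * ρ' p.2) := h3
      _ = _ := by ring
  have e1 : ∫ p : ℂ × ℂ, (‖p.1‖ * ρ p.1) * ρ' p.2 = ∫ x, ‖x‖ * ρ x := by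
    have := integral_prod_mul (μ := (volume : Measure ℂ)) (ν := (volume : Measure ℂ))
      (fun x => ‖x‖ * ρ x) ρ'
    rw [h'.one, mul_one] at this
    exact this
  have e2 : ∫ p : ℂ × ℂ, ρ p.1 * (‖p.2‖ * ρ' p.2) = ∫ x, ‖x‖ * ρ' x := by
    have := integral_prod_mul (μ := (volume : Measure ℂ)) (ν := (volume : Measure ℂ))
      ρ (fun x => ‖x‖ * ρ' x)
    rw [h.one, one_mul] at this
    exact this
  rw [integral_add' i1 i2, e1, e2] at h1
  have hpi : 0 < 1 / (4 * Real.pi) := by positivity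
  unfold En
  nlinarith [mul_le_mul_of_nonneg_left h1 hpi.le]

theorem FA_fix {ρ : ℂ → ℝ} (h : Dens ρ) (hm : mo ρ ≤ 1) {a b s : ℝ} (ha : a < En ρ ρ)
    (hb : En ρ ρ < b) (hs : s < Sent ρ) :
    ∃ ρ' : ℂ → ℝ, Dens ρ' ∧ mo ρ' = 1 ∧ mean ρ' = 0 ∧ a < En ρ' ρ' ∧ En ρ' ρ' < b ∧
      s < Sent ρ' := by
  obtain ⟨d1, s1, m1, c1, E1⟩ := GE_shift h
  set ρ₁ : ℂ → ℝ := fun x => ρ (x + mean ρ) with hρ₁
  have hm1 : mo ρ₁ ≤ 1 := by rw [m1]; nlinarith [sq_nonneg ‖mean ρ‖]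
  rw [← E1] at ha hb
  rw [← s1] at hs
  clear_value ρ₁
  clear m1 s1 E1 hρ₁
  rcases hm1.eq_or_lt with he | hlt
  · exact ⟨ρ₁, d1, he, c1, ha, hb, hs⟩
  obtain ⟨dg, mg, cg, -⟩ := GA_dens
  set m : ℝ := mo ρ₁ with hmdef
  have hm0 : 0 ≤ m := by
    rw [hmdef]
    exact integral_nonneg fun x => mul_nonneg (by positivity) (d1.nonneg x)
  set t : ℝ → ℝ := fun R => (1 - m) / (R ^ 2 - m) with ht
  have ht0 : ∀ R, 2 ≤ R → 0 ≤ t R := by
    intro R hR
    have : 0 < R ^ 2 - m := by nlinarith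
    exact div_nonneg (by linarith) this.le
  have ht1 : ∀ R, 2 ≤ R → t R * R ≤ 2 / R := by
    intro R hR
    have h1 : 0 < R ^ 2 - m := by nlinarith
    have h2 : 0 < R := by linarith
    rw [ht]
    show (1 - m) / (R ^ 2 - m) * R ≤ 2 / R
    rw [div_mul_eq_mul_div, div_le_div_iff₀ h1 h2]
    nlinarith [mul_nonneg hm0 (sq_nonneg R)]
  have ht2 : ∀ R, 2 ≤ R → t R ≤ 1 := by
    intro R hR
    have h1 : 0 < R ^ 2 - m := by nlinarith
    rw [ht]
    show (1 - m) / (R ^ 2 - m) ≤ 1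
    rw [div_le_one h1]
    nlinarith
  have l2 : Tendsto (fun R : ℝ => 2 / R) atTop (𝓝 0) := tendsto_const_nhds.div_atTop tendsto_id
  have ltR : Tendsto (fun R => t R * R) atTop (𝓝 0) := by
    refine squeeze_zero' ?_ ?_ l2
    · filter_upwards [eventually_ge_atTop 2] with R hR
      exact mul_nonneg (ht0 R hR) (by linarith)
    · filter_upwards [eventually_ge_atTop 2] with R hR using ht1 R hR
  have lt : Tendsto t atTop (𝓝 0) := by
    refine squeeze_zero' ?_ ?_ ltR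
    · filter_upwards [eventually_ge_atTop 2] with R hR using ht0 R hR
    · filter_upwards [eventually_ge_atTop 2] with R hR
      nlinarith [ht0 R hR]
  have ltl : Tendsto (fun R => t R * Real.log R) atTop (𝓝 0) := by
    refine squeeze_zero' ?_ ?_ ltR
    · filter_upwards [eventually_ge_atTop 2] with R hR
      exact mul_nonneg (ht0 R hR) (Real.log_nonneg (by linarith))
    · filter_upwards [eventually_ge_atTop 2] with R hR
      exact mul_le_mul_of_nonneg_left (Real.log_le_self (by linarith)) (ht0 R hR)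
  set e₁ : ℝ := En ρ₁ ρ₁ with he₁
  set eg : ℝ := En gau gau with heg
  set κ : ℝ := 1 / (4 * Real.pi) with hκ
  have hκ0 : 0 < κ := by rw [hκ]; positivity
  set c : ℝ := ∫ x, ‖x‖ * ρ₁ x with hc
  set S1 : ℝ := Sent ρ₁ with hS1
  set Sg : ℝ := Sent gau with hSg
  have l1t : Tendsto (fun R => 1 - t R) atTop (𝓝 1) := by simpa using tendsto_const_nhds.sub lt
  have lq : Tendsto (fun R => t R * (t R * eg - κ * (t R * Real.log R))) atTop (𝓝 0) := by
    simpa using lt.mul ((lt.mul_const eg).sub (ltl.const_mul κ))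
  have lL : Tendsto (fun R => (1 - t R) ^ 2 * e₁ +
      2 * (1 - t R) * (-κ * (t R * c + t R * R)) +
        t R * (t R * eg - κ * (t R * Real.log R))) atTop (𝓝 e₁) := by
    simpa using (((l1t.pow 2).mul_const e₁).add
      ((l1t.const_mul 2).mul (((lt.mul_const c).add ltR).const_mul (-κ)))).add lq
  have lU : Tendsto (fun R => (1 - t R) ^ 2 * e₁ +
      (1 - t R) * (t R * e₁ + t R * eg - κ * (t R * Real.log R)) +
        t R * (t R * eg - κ * (t R * Real.log R))) atTop (𝓝 e₁) := by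
    simpa using (((l1t.pow 2).mul_const e₁).add
      (l1t.mul (((lt.mul_const e₁).add (lt.mul_const eg)).sub (ltl.const_mul κ)))).add lq
  have lS : Tendsto (fun R => (1 - t R) * S1 + (t R * Sg + 2 * (t R * Real.log R))) atTop
      (𝓝 S1) := by
    simpa using (l1t.mul_const S1).add ((lt.mul_const Sg).add (ltl.const_mul 2))
  obtain ⟨R, ⟨⟨h1, h2⟩, h3⟩, hR⟩ := (((lL.eventually_const_lt ha).and
    (lU.eventually_lt_const hb)).and (lS.eventually_const_lt hs)).and (eventually_ge_atTop 2)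
    |>.exists
  have hR0 : 0 < R := by linarith
  obtain ⟨dG, sG, mG, cG, EG⟩ := GE_dil dg hR0
  rw [mg, mul_one] at mG
  rw [cg, mul_zero] at cG
  have t0 := ht0 R hR
  have t1 := ht2 R hR
  have t1' : 0 ≤ 1 - t R := by linarith
  have hX1 := FA_low d1 dG
  have hX2 := FA_norm_le dG hR0
  have hX3 := CX_mid d1 dG
  have hX : -κ * (c + R) ≤ En ρ₁ (dil R gau) := by
    refine le_trans ?_ hX1
    have : ∫ x, ‖x‖ * dil R gau x ≤ R := by
      rw [mG] at hX2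
      calc _ ≤ (R + R ^ 2 / R) / 2 := hX2
        _ = R := by field_simp; ring
    nlinarith
  refine ⟨mix (t R) ρ₁ (dil R gau), MX_dens d1 dG t0 t1, ?_, ?_, ?_, ?_, ?_⟩
  · rw [MX_mo d1 dG, mG, ← hmdef]
    have h5 : R ^ 2 - m ≠ 0 := by nlinarith
    rw [ht]
    show (1 - (1 - m) / (R ^ 2 - m)) * m + (1 - m) / (R ^ 2 - m) * R ^ 2 = 1
    field_simp
    ring
  · rw [MX_mean d1 dG, c1, cG]
    simp
  · rw [EN_mix d1 dG, EG]
    refine h1.trans_le ?_
    have h6 := mul_le_mul_of_nonneg_left hX (mul_nonneg t1' t0)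
    linarith
  · rw [EN_mix d1 dG, EG]
    refine lt_of_le_of_lt ?_ h2
    rw [EG] at hX3
    have h6 := mul_le_mul_of_nonneg_left hX3 (mul_nonneg t1' t0)
    linarith
  · refine lt_of_lt_of_le h3 (le_trans ?_ (MX_sent d1 dG t0 t1))
    rw [sG]
    apply le_of_eq
    ring

end

end Pool.Agent.Lib_helper68.MC
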