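import Pool.Agent.Lib_helper81.MC.RR
import Mathlib.NumberTheory.Harmonic.GammaDeriv

/-! Project MC (MP_b08f5f_an), block EG: the energy of the Gaussian density. -/

set_option autoImplicit false

namespace Pool.Agent.Lib_helper68.MC

open MeasureTheory Filter Topology Set

noncomputable section

theorem EG_log : ∫ t in Ioi (0 : ℝ), Real.log t * Real.exp (-t) = -Real.eulerMascheroniConstant := by
  have h1 := Complex.hasDerivAt_GammaIntegral (s := 1) (by simp)
  have h2 : (fun s : ℂ => Complex.GammaIntegral s) =ᶠ[𝓝 (1 : ℂ)] Complex.Gamma := by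
    have : ∀ᶠ s : ℂ in 𝓝 (1 : ℂ), 0 < s.re :=
      (Complex.continuous_re.tendsto 1).eventually (Ioi_mem_nhds (by simp))
    filter_upwards [this] with s hs
    exact (Complex.Gamma_eq_integral hs).symm
  have h3 : HasDerivAt Complex.GammaIntegral (-(Real.eulerMascheroniConstant : ℂ)) 1 :=
    Complex.hasDerivAt_Gamma_one.congr_of_eventuallyEq h2
  have h4 := h1.unique h3
  have h5 : (∫ t : ℝ in Ioi 0, (t : ℂ) ^ ((1 : ℂ) - 1) * (Real.log t * Real.exp (-t))) =
      ((∫ t in Ioi (0 : ℝ), Real.log t * Real.exp (-t) : ℝ) : ℂ) := by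
    have h6 := integral_complex_ofReal (μ := volume.restrict (Ioi (0 : ℝ)))
      (f := fun t : ℝ => Real.log t * Real.exp (-t))
    rw [← h6]
    refine setIntegral_congr_fun measurableSet_Ioi fun t _ => ?_
    simp
  rw [h5] at h4
  exact_mod_cast h4

theorem EG_logi : IntegrableOn (fun t : ℝ => Real.log t * Real.exp (-t)) (Ioi 0) := by
  by_contra h
  have h1 := integral_undef h
  rw [EG_log] at h1
  have := Real.one_half_lt_eulerMascheroniConstant
  linarith

theorem EG_loga_aux {a : ℝ} (ha : 0 < a) : ∀ t ∈ Ioi (0 : ℝ),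
    (fun t : ℝ => Real.log t * Real.exp (-(a * t))) t =
      (fun u : ℝ => Real.log u * Real.exp (-u) - Real.log a * Real.exp (-u)) (a * t) := by
  intro t ht
  have ht' : (0 : ℝ) < t := ht
  simp only
  rw [Real.log_mul ha.ne' ht'.ne']
  ring

theorem EG_expi : IntegrableOn (fun t : ℝ => Real.exp (-t)) (Ioi 0) := by
  simpa using integrableOn_exp_neg_Ioi (0 : ℝ)

theorem EG_logai {a : ℝ} (ha : 0 < a) :
    IntegrableOn (fun t : ℝ => Real.log t * Real.exp (-(a * t))) (Ioi 0) := by
  have h := (EG_logi.sub (EG_expi.const_mul (Real.log a)))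
  have h2 : IntegrableOn (fun t => (fun u : ℝ => Real.log u * Real.exp (-u) -
      Real.log a * Real.exp (-u)) (a * t)) (Ioi 0) := by
    have := (integrableOn_Ioi_comp_mul_left_iff (fun u : ℝ => Real.log u * Real.exp (-u) -
      Real.log a * Real.exp (-u)) 0 ha)
    rw [this, mul_zero]
    exact h
  exact h2.congr_fun (fun t ht => (EG_loga_aux ha t ht).symm) measurableSet_Ioi

theorem EG_loga {a : ℝ} (ha : 0 < a) :
    ∫ t in Ioi (0 : ℝ), Real.log t * Real.exp (-(a * t)) =
      -(Real.eulerMascheroniConstant + Real.log a) / a := by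
  rw [setIntegral_congr_fun measurableSet_Ioi (EG_loga_aux ha),
    integral_comp_mul_left_Ioi (fun u : ℝ => Real.log u * Real.exp (-u) -
      Real.log a * Real.exp (-u)) 0 ha, mul_zero,
    integral_sub EG_logi (EG_expi.const_mul _), EG_log, integral_const_mul,
    integral_exp_neg_Ioi_zero]
  simp only [smul_eq_mul, mul_one]
  field_simp
  ring

/-- the exponential density -/
def eg (v : ℝ) : ℝ := (Ioi (0 : ℝ)).indicator (fun v => Real.pi⁻¹ * Real.exp (-(Real.pi⁻¹ * v))) v

theorem EG_int1 {a : ℝ} (ha : 0 < a) : IntegrableOn (fun t : ℝ => Real.exp (-(a * t))) (Ioi 0) := by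
  have := integrableOn_exp_mul_Ioi (a := -a) (by linarith) 0
  simpa [neg_mul] using this

theorem EG_one {a : ℝ} (ha : 0 < a) : ∫ t in Ioi (0 : ℝ), Real.exp (-(a * t)) = a⁻¹ := by
  rw [integral_comp_mul_left_Ioi (fun u : ℝ => Real.exp (-u)) 0 ha, mul_zero,
    integral_exp_neg_Ioi_zero]
  simp

theorem EG_ind (F : ℝ → ℝ) : (fun v => F v * eg v) = (Ioi (0 : ℝ)).indicator
    (fun v => F v * (Real.pi⁻¹ * Real.exp (-(Real.pi⁻¹ * v)))) := by
  funext v
  by_cases hv : v ∈ Ioi (0 : ℝ)
  · simp [eg, hv]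
  · simp [eg, hv]

theorem EG_meas : Measurable eg :=
  Measurable.indicator (by fun_prop) measurableSet_Ioi

theorem EG_den : Den1 eg := by
  have hp : 0 < Real.pi⁻¹ := inv_pos.2 Real.pi_pos
  have hint : Integrable eg := by
    unfold eg
    rw [integrable_indicator_iff measurableSet_Ioi]
    exact (EG_int1 hp).const_mul _
  have hmom : Integrable fun v => v * eg v := by
    rw [EG_ind (fun v => v), integrable_indicator_iff measurableSet_Ioi]
    have h := Real.GammaIntegral_convergent (s := 2) (by norm_num)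
    have h2 : IntegrableOn (fun u : ℝ => u * Real.exp (-u)) (Ioi 0) := by
      refine h.congr_fun (fun t _ => ?_) measurableSet_Ioi
      simp only
      rw [show (2 : ℝ) - 1 = 1 by norm_num, Real.rpow_one]
      ring
    have h3 := (integrableOn_Ioi_comp_mul_left_iff (fun u : ℝ => u * Real.exp (-u)) 0 hp)
    rw [mul_zero] at h3
    refine (h3.2 h2).congr_fun (fun t _ => ?_) measurableSet_Ioi
    simp only
    ring
  refine ⟨EG_meas, ?_, ?_, hint, ?_, ?_, hmom⟩
  · intro v
    unfold eg
    exact indicator_nonneg (fun v _ => by positivity) v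
  · intro v hv
    simp [eg, hv]
  · unfold eg
    rw [integral_indicator measurableSet_Ioi, integral_const_mul, EG_one hp]
    field_simp
  · have e : (fun v => eg v * Real.log (eg v)) =
        fun v => Real.log (Real.pi⁻¹) * eg v - Real.pi⁻¹ * (v * eg v) := by
      funext v
      by_cases hv : v ∈ Ioi (0 : ℝ)
      · have h1 : eg v = Real.pi⁻¹ * Real.exp (-(Real.pi⁻¹ * v)) := by simp [eg, hv]
        rw [h1, Real.log_mul hp.ne' (Real.exp_pos _).ne', Real.log_exp]
        ring
      · have h1 : eg v = 0 := by simp [eg, hv]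
        simp [h1]
    rw [e]
    exact (hint.const_mul _).sub (hmom.const_mul _)

theorem EG_mass {v : ℝ} (hv : 0 < v) : ∫ w in Iic v, eg w = 1 - Real.exp (-(Real.pi⁻¹ * v)) := by
  have hp : 0 < Real.pi⁻¹ := inv_pos.2 Real.pi_pos
  have h1 := integral_add_compl (s := Iic v) measurableSet_Iic EG_den.int
  rw [compl_Iic, EG_den.one] at h1
  have h2 : ∫ w in Ioi v, eg w = Real.exp (-(Real.pi⁻¹ * v)) := by
    have e : ∀ w ∈ Ioi v, eg w = Real.pi⁻¹ * Real.exp (-(Real.pi⁻¹ * w)) := by
      intro w hw
      have : w ∈ Ioi (0 : ℝ) := lt_trans hv hw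
      simp [eg, this]
    rw [setIntegral_congr_fun measurableSet_Ioi e, integral_const_mul,
      integral_comp_mul_left_Ioi (fun u : ℝ => Real.exp (-u)) v hp, integral_exp_neg_Ioi]
    simp only [smul_eq_mul]
    field_simp
  linarith

theorem EG_L1half {g : ℝ → ℝ} (h : Den1 g) (hl : Integrable fun v => Real.log v * g v) :
    L1 g = 2 * ∫ v, Real.log v * g v * ∫ w in Iic v, g w := by
  have m1 : MeasurableSet {p : ℝ × ℝ | p.2 ≤ p.1} := measurableSet_le measurable_snd measurable_fst
  have m2 : MeasurableSet {p : ℝ × ℝ | p.1 < p.2} := measurableSet_lt measurable_fst measurable_snd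
  have i1 : Integrable (fun p : ℝ × ℝ => (Real.log p.1 * g p.1) * g p.2) :=
    Integrable.mul_prod hl h.int
  have i2 : Integrable (fun p : ℝ × ℝ => g p.1 * (Real.log p.2 * g p.2)) :=
    Integrable.mul_prod h.int hl
  have e : (fun p : ℝ × ℝ => Real.log (max p.1 p.2) * (g p.1 * g p.2)) =
      fun p => {p : ℝ × ℝ | p.2 ≤ p.1}.indicator (fun p => (Real.log p.1 * g p.1) * g p.2) p +
        {p : ℝ × ℝ | p.1 < p.2}.indicator (fun p => g p.1 * (Real.log p.2 * g p.2)) p := by
    funext p
    by_cases hp : p.2 ≤ p.1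
    · have h2 : ¬ p.1 < p.2 := not_lt.2 hp
      simp only [indicator, mem_ofPred_eq, hp, h2, if_true, if_false, max_eq_left]
      ring
    · have h2 : p.1 < p.2 := not_le.1 hp
      simp only [indicator, mem_ofPred_eq, hp, h2, if_true, if_false, max_eq_right h2.le]
      ring
  have a1 : ∫ p : ℝ × ℝ, {p : ℝ × ℝ | p.2 ≤ p.1}.indicator
      (fun p => (Real.log p.1 * g p.1) * g p.2) p = ∫ v, Real.log v * g v * ∫ w in Iic v, g w := by
    rw [Measure.volume_eq_prod, integral_prod _ (by
      rw [← Measure.volume_eq_prod]; exact i1.indicator m1)]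
    refine integral_congr_ae (Eventually.of_forall fun v => ?_)
    simp only
    rw [← integral_const_mul, ← integral_indicator measurableSet_Iic]
    refine integral_congr_ae (Eventually.of_forall fun w => ?_)
    simp [indicator]
  have a2 : ∫ p : ℝ × ℝ, {p : ℝ × ℝ | p.1 < p.2}.indicator
      (fun p => g p.1 * (Real.log p.2 * g p.2)) p = ∫ v, Real.log v * g v * ∫ w in Iic v, g w := by
    rw [Measure.volume_eq_prod, integral_prod_symm _ (by
      rw [← Measure.volume_eq_prod]; exact i2.indicator m2)]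
    refine integral_congr_ae (Eventually.of_forall fun v => ?_)
    simp only
    rw [← integral_const_mul, integral_Iic_eq_integral_Iio, ← integral_indicator measurableSet_Iio]
    refine integral_congr_ae (Eventually.of_forall fun w => ?_)
    simp only [indicator, mem_ofPred_eq, mem_Iio]
    split_ifs <;> ring
  unfold L1
  rw [e, integral_add (i1.indicator m1) (i2.indicator m2), a1, a2]
  ring

theorem EG_L1 : L1 eg = Real.log Real.pi + Real.log 2 - Real.eulerMascheroniConstant := by
  have hp : 0 < Real.pi⁻¹ := inv_pos.2 Real.pi_pos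
  have hp2 : 0 < 2 * Real.pi⁻¹ := by positivity
  have hl : Integrable fun v => Real.log v * eg v := by
    rw [EG_ind, integrable_indicator_iff measurableSet_Ioi]
    have h1 : IntegrableOn (fun t : ℝ => Real.pi⁻¹ * (Real.log t * Real.exp (-(Real.pi⁻¹ * t))))
      (Ioi 0) := (EG_logai hp).const_mul (Real.pi⁻¹)
    refine h1.congr_fun (fun t _ => ?_) measurableSet_Ioi
    simp only
    ring
  rw [EG_L1half EG_den hl]
  have e : (fun v => Real.log v * eg v * ∫ w in Iic v, eg w) = (Ioi (0 : ℝ)).indicator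
      (fun v => Real.pi⁻¹ * (Real.log v * Real.exp (-(Real.pi⁻¹ * v)) -
        Real.log v * Real.exp (-(2 * Real.pi⁻¹ * v)))) := by
    funext v
    by_cases hv : v ∈ Ioi (0 : ℝ)
    · rw [EG_mass hv]
      have h1 : eg v = Real.pi⁻¹ * Real.exp (-(Real.pi⁻¹ * v)) := by simp [eg, hv]
      have h2 : Real.exp (-(2 * Real.pi⁻¹ * v)) =
          Real.exp (-(Real.pi⁻¹ * v)) * Real.exp (-(Real.pi⁻¹ * v)) := by
        rw [← Real.exp_add]; congr 1; ring
      rw [h1, indicator_of_mem hv, h2]
      ring
    · have h1 : eg v = 0 := by simp [eg, hv]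
      simp [h1, hv]
  rw [e, integral_indicator measurableSet_Ioi, integral_const_mul,
    integral_sub (EG_logai hp) (EG_logai hp2), EG_loga hp, EG_loga hp2,
    Real.log_mul two_ne_zero hp.ne', Real.log_inv]
  field_simp
  ring

theorem EG_main : En gau gau = (Real.eulerMascheroniConstant - Real.log 2) / (8 * Real.pi) := by
  have h0 : gau =ᵐ[volume] lif eg := by
    have h1 : ∀ᵐ x : ℂ ∂volume, x ≠ 0 := by
      rw [ae_iff]
      simp
    filter_upwards [h1] with x hx
    have h2 : Real.pi * ‖x‖ ^ 2 ∈ Ioi (0 : ℝ) := by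
      have : 0 < ‖x‖ := norm_pos_iff.2 hx
      have := Real.pi_pos
      simp only [mem_Ioi]
      positivity
    have h3 : Real.pi⁻¹ * (Real.pi * ‖x‖ ^ 2) = ‖x‖ ^ 2 := by
      have := Real.pi_pos
      field_simp
    simp only [gau, lif, eg, indicator_of_mem h2, h3]
  have h4 : En gau gau = En (lif eg) (lif eg) := by
    unfold En
    congr 1
    apply integral_congr_ae
    have q1 : ∀ᵐ p : ℂ × ℂ, gau p.1 = lif eg p.1 :=
      (Measure.quasiMeasurePreserving_fst (μ := volume) (ν := volume)).ae h0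
    have q2 : ∀ᵐ p : ℂ × ℂ, gau p.2 = lif eg p.2 :=
      (Measure.quasiMeasurePreserving_snd (μ := volume) (ν := volume)).ae h0
    filter_upwards [q1, q2] with p e1 e2
    rw [e1, e2]
  rw [h4, RR_en EG_den, EG_L1]
  have := Real.pi_pos
  field_simp
  ring

theorem EG_gt : e0 < En gau gau := by
  rw [EG_main]
  unfold e0
  have h1 := Real.one_half_lt_eulerMascheroniConstant
  have h2 := Real.pi_pos
  rw [div_lt_div_iff₀ (by positivity) (by positivity)]
  nlinarith

end

end Pool.Agent.Lib_helper68.MC
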